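import Pool.Agent.H23.GW.Targets

/-!
# Perfect spanning sets: density zero for every radius, targets of the modules
-/

set_option autoImplicit false

open Finset Polynomial Filter Topology
open scoped Classical

namespace Pool.Agent.H23.GA

open Pool.Agent.H23.GW

noncomputable section

/-- `BP v n` is the polynomial in `m` given by `BP v 0 = 1` and
`n * BP v n = ∑ k ∈ [1, n], (v k - 2 m [k even]) * BP v (n - k)` -/
def BP (v : ℕ → ℝ) : ℕ → ℝ[X]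
  | 0 => 1
  | n + 1 => C ((n + 1 : ℝ)⁻¹) * ∑ k : Fin (n + 1),
      (C (v (k.1 + 1)) - if Even (k.1 + 1) then 2 * X else 0) * BP v (n - k.1)

/-- cosine sums of a weight on `ZMod p` -/
def cs (p : ℕ) (τ : ZMod p → ℕ) (t : ZMod p) : ℝ :=
  ∑ c ∈ range p, (τ (c : ZMod p) : ℝ) * Real.cos (2 * Real.pi * ((t.val * c : ℕ) : ℝ) / p)

/-- the image in `ZMod p` of the tile of a perfect `s`-spanning set of size `m` -/
def Img (p s m : ℕ) (τ : ZMod p → ℕ) : Prop :=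
  (∀ c, τ (-c) = τ c) ∧ ∑ c ∈ range p, τ (c : ZMod p) = 2 * m + 1 ∧
    ∀ t : ZMod p, t ≠ 0 → (BP (fun k => cs p τ ((k : ZMod p) * t)) s).eval (m : ℝ) = 0

/-- number of integer vectors of length `m` with `∑ |c i| ≤ s` -/
def aa (m s : ℕ) : ℕ := #(ball (Fin m) s)

/-- (RD) the image of a perfect spanning set in a quotient of prime order. -/
def T_RD : Prop :=
  ∀ (G : Type) [AddCommGroup G] [Fintype G] (A : Finset G) (s p : ℕ), PerfectSpanning A s →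
    1 ≤ s → Fintype.card G = aa #A s ∧
    (p.Prime → p ∣ Fintype.card G → ∃ τ : ZMod p → ℕ, Img p s #A τ)

/-- (LC) leading coefficients. -/
def T_LC : Prop :=
  ∀ (v : ℕ → ℝ) (n r : ℕ), (BP v n).natDegree ≤ n / 2 ∧
    (BP v (2 * r)).coeff r = (-1) ^ r / (r.factorial : ℝ) ∧
    (BP v (2 * r + 1)).coeff r = (-1) ^ r * v 1 / (r.factorial : ℝ)

/-- (BD) square root bound. -/
def T_BD : Prop :=
  ∀ s : ℕ, 1 ≤ s → ∃ K : ℝ, 0 < K ∧ ∀ p : ℕ, p.Prime → s < p → ∀ (m : ℝ) (v : ZMod p → ℝ),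
    1 ≤ m → (∀ t : ZMod p, t ≠ 0 → (BP (fun k => v ((k : ZMod p) * t)) s).eval m = 0) →
    ∀ t : ZMod p, t ≠ 0 → |v t| ≤ K * √m

/-- (ND) the cosine sums are close to finitely many multiples of the square root. -/
def T_ND : Prop :=
  ∀ s : ℕ, 1 ≤ s → ∃ (K : ℝ) (R : Finset ℝ), 0 < K ∧ ∀ p : ℕ, p.Prime → s < p →
    ∀ (m : ℝ) (v : ZMod p → ℝ), 1 ≤ m →
    (∀ t : ZMod p, t ≠ 0 → (BP (fun k => v ((k : ZMod p) * t)) s).eval m = 0) →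
    ∀ t : ZMod p, t ≠ 0 → ∃ ρ ∈ R, |v t - ρ * √m| ≤ K

/-- (CT) the number of sizes with an image in `ZMod p`. -/
def T_CT : Prop :=
  ∀ s p : ℕ, 2 ≤ s → p.Prime → s < p → ∃ K : ℝ, ∀ Y : ℕ,
    (#{m ∈ range Y | (Even s ∨ ¬ p ∣ 2 * m + 1) ∧ ∃ τ : ZMod p → ℕ, Img p s m τ} : ℝ) ≤ K * √Y

/-- (AP) the cardinality of the balls and its prime divisors. -/
def T_AP : Prop :=
  ∀ s : ℕ, 2 ≤ s → ∃ (g : ℤ[X]) (P₀ : ℕ), 0 < g.natDegree ∧ ∀ p : ℕ, p.Prime → P₀ ≤ p →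
    ∀ m : ℕ, (p : ℤ) ∣ g.eval (m : ℤ) → p ∣ aa m s ∧ (Even s ∨ ¬ p ∣ 2 * m + 1)

/-- (RO) the primes dividing a value of a polynomial. -/
def T_RO : Prop :=
  ∀ g : ℤ[X], 0 < g.natDegree →
    ¬ Summable (fun p : {p : ℕ // p.Prime ∧ ∃ m : ℕ, (p : ℤ) ∣ g.eval (m : ℤ)} => (1 : ℝ) / p.1)

/-- (SV) the sieve. -/
def T_SV : Prop :=
  ∀ (S P : Set ℕ) (r : ℕ → ℕ), (∀ p ∈ P, p.Prime) → ¬ Summable (fun p : P => (1 : ℝ) / p.1) →
    (∀ p ∈ P, Tendsto (fun Y : ℕ => (#{m ∈ range Y | m ∈ S ∧ m ≡ r p [MOD p]} : ℝ) / Y)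
      atTop (𝓝 0)) →
    Tendsto (fun Y : ℕ => (#{m ∈ range Y | m ∈ S} : ℝ) / Y) atTop (𝓝 0)

/-- `m` is the size of a perfect `s`-spanning set of some finite abelian group -/
def IsSize (s m : ℕ) : Prop :=
  ∃ (G : Type) (_ : AddCommGroup G) (_ : Finite G) (A : Finset G), #A = m ∧ PerfectSpanning A s

/-- (FD) the final theorem. -/
def T_FD : Prop :=
  (∀ s : ℕ, 2 ≤ s → Tendsto (fun Y : ℕ => (#{m ∈ range Y | IsSize s m} : ℝ) / Y) atTop (𝓝 0)) ∧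
  ∀ s p : ℕ, 2 ≤ s → p.Prime → s < p → ∃ K : ℝ, ∀ Y : ℕ,
    (#{m ∈ range Y | IsSize s m ∧ p ∣ aa m s ∧ (Even s ∨ ¬ p ∣ 2 * m + 1)} : ℝ) ≤ K * √Y

end

end Pool.Agent.H23.GA
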