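import Pool.Agent.H23.GU.SGVF
import Pool.Agent.H34.GA.Targets1

/-!
Row SGA of the board ga: the singular part vanishes on decaying cusp forms.
-/

namespace Pool.Agent.H23.GA

open MeasureTheory Pool.Agent.H34.GM Pool.Agent.H34.GZ Pool.Agent.H34.GU Pool.Agent.H34.GA
open Pool.Agent.H23.GU

theorem sga_of (hS : T_SNU) (hAC : T_ACA) : T_SGA := by
  classical
  intro m N _ T D hsys F lam hF hdc0 Ψ hΨ g r x hg hr
  have hm1 := hsys.one_le
  have hD := hsys.dom
  have hab := hAC m N T D hsys F lam hF.toHecA Ψ hΨ (Or.inl hdc0) g r x hg hr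
  set G : ZM m → V m → ℂ := fun α z => if (mt z).det = 0 ∨ α.det ≠ 0 then 0 else
    Ψ (kk r (mt z) (cR α) g) * F (mt z) (ac N α x) with hG
  have hdc : Continuous fun z : V m => mt z := by
    refine continuous_matrix fun i j => ?_
    show Continuous fun z : V m => z i j
    fun_prop
  have hopen : MeasurableSet {z : V m | (mt z).det ≠ 0} :=
    (isOpen_ne_fun det_cont continuous_const).measurableSet
  have hmeas : ∀ α, Measurable (G α) := by
    intro α
    by_cases hα : α.det ≠ 0
    · have : G α = fun _ => 0 := by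
        funext z
        simp only [hG]
        rw [if_pos (Or.inr hα)]
      rw [this]
      exact measurable_const
    · have h1 : G α = fun z => Ψ (kk r (mt z) (cR α) g) *
          ({z : V m | (mt z).det ≠ 0}).piecewise (fun z => F (mt z) (ac N α x)) (fun _ => 0) z := by
        funext z
        simp only [hG]
        by_cases hz : (mt z).det = 0
        · rw [if_pos (Or.inl hz), Set.piecewise_eq_of_notMem _ _ _ (by simpa using hz), mul_zero]
        · rw [if_neg (by simp only [not_or, not_not]; exact ⟨hz, not_not.1 hα⟩),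
            Set.piecewise_eq_of_mem _ _ _ (show z ∈ {z : V m | (mt z).det ≠ 0} from hz)]
      rw [h1]
      refine Measurable.mul ?_ ?_
      · have h2 : Measurable fun v : V m => Ψ (mt v) := (hΨ.cont.comp hdc).measurable
        exact h2.comp (kk_meas r (cR α) g)
      · refine ContinuousOn.measurable_piecewise ?_ continuousOn_const hopen
        exact (hF.cont (ac N α x)).comp hdc.continuousOn (fun z hz => hz)
  have hinv : ∀ (c α : ZM m) (z : V m), IsUnit c → (mt z).det ≠ 0 →
      G (c * α) (fun i j => (cR c * mt z) i j) = G α z := by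
    intro c α z hc hz
    show (if (mt (lm (cR c) z)).det = 0 ∨ (c * α).det ≠ 0 then 0 else
      Ψ (kk r (mt (lm (cR c) z)) (cR (c * α)) g) * F (mt (lm (cR c) z)) (ac N (c * α) x)) =
      if (mt z).det = 0 ∨ α.det ≠ 0 then 0 else
      Ψ (kk r (mt z) (cR α) g) * F (mt z) (ac N α x)
    have h1 : (mt (lm (cR c) z)).det ≠ 0 := det_lmU hc hz
    have h2 : (c * α).det = 0 ↔ α.det = 0 := by
      rw [Matrix.det_mul]
      have h3 : c.det ≠ 0 := ((Matrix.isUnit_iff_isUnit_det c).1 hc).ne_zero
      constructor
      · intro h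
        exact (mul_eq_zero.1 h).resolve_left h3
      · intro h
        rw [h, mul_zero]
    by_cases hα : α.det = 0
    · rw [if_neg (by simp only [not_or, not_not]; exact ⟨h1, h2.2 hα⟩),
        if_neg (by simp only [not_or, not_not]; exact ⟨hz, hα⟩), mt_lm, kk_unit hc]
      congr 1
      have h4 : ac N (c * α) x = ac N c (ac N α x) := by
        show (cQ N (c * α)).mulVec x = (cQ N c).mulVec ((cQ N α).mulVec x)
        rw [Matrix.mulVec_mulVec]
        congr 1
        unfold cQ
        exact Matrix.map_mul (f := Int.castRingHom (ZMod N))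
      rw [h4]
      exact hF.auto c hc (mt z) (ac N α x) hz
    · rw [if_pos (Or.inr fun h => hα (h2.1 h)), if_pos (Or.inr hα)]
  have h0 : ∀ z, G 0 z = 0 := by
    intro z
    simp only [hG]
    split_ifs
    · rfl
    · have h1 : ac N (0 : ZM m) x = 0 := by
        show (cQ N 0).mulVec x = 0
        have : cQ N (0 : ZM m) = 0 := by
          ext i j
          simp [cQ]
        rw [this, Matrix.zero_mulVec]
      have h2 : ¬ Pr (0 : VN m N) := by
        rintro ⟨u, hu⟩
        have h3 : dt u (0 : VN m N) = 0 := by simp [dt]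
        rw [h3] at hu
        have : Fact (1 < N) := ⟨by have := hsys.two_le; omega⟩
        exact zero_ne_one hu
      rw [h1, hF.supp _ _ h2, mul_zero]
  have hkey := hS m N D hm1 (by have := hsys.two_le; omega) hD G hmeas hinv
    (fun α z hα => by simp only [hG]; rw [if_pos (Or.inr hα)]) h0 ?_ ?_
  · refine Eq.trans ?_ hkey
    refine setIntegral_congr_fun hD.meas fun z hz => ?_
    have hz' : (mt z).det ≠ 0 := shell_det hm1 (hD.shell z hz)
    refine tsum_congr fun α => ?_
    simp only [hG]
    by_cases hα : α.det = 0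
    · rw [if_pos hα, if_neg (by simp only [not_or, not_not]; exact ⟨hz', hα⟩)]
    · rw [if_neg hα, if_pos (Or.inr hα)]
  · refine lt_of_le_of_lt (lintegral_mono fun z => ENNReal.tsum_le_tsum fun α => ?_) hab
    simp only [hG]
    split_ifs
    · simp
    · exact le_rfl
  · intro k hk0 hkm β hβ z hz
    by_cases hd : β.det = 0
    · have h1 : ∀ u : V m, G β (fun i j => ((1 + (N : ℝ) • nk k u) * mt z) i j) =
          Ψ (kk r (mt z) (cR β) g) * F ((1 + (N : ℝ) • nk k u) * mt z) (ac N β x) := by
        intro u
        show (if (mt (lm (1 + (N : ℝ) • nk k u) z)).det = 0 ∨ β.det ≠ 0 then 0 else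
          Ψ (kk r (mt (lm (1 + (N : ℝ) • nk k u) z)) (cR β) g) *
            F (mt (lm (1 + (N : ℝ) • nk k u) z)) (ac N β x)) = _
        rw [if_neg, mt_lm]
        · congr 1
          rw [Pu1_smul, kk_Pu1 hβ]
        · rw [Pu1_smul]
          simp only [not_or, not_not]
          exact ⟨det_lmP k _ hz, hd⟩
      simp only [h1]
      rw [integral_const_mul, hF.cusp k hk0 hkm (mt z) (ac N β x) hz, mul_zero]
    · have h1 : ∀ u : V m, G β (fun i j => ((1 + (N : ℝ) • nk k u) * mt z) i j) = 0 := by
        intro u
        simp only [hG]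
        rw [if_pos (Or.inr hd)]
      simp only [h1, integral_zero]

theorem pf_SGA : T_ACA → T_SGA :=
  sga_of (pf_SNU Pool.Agent.H75.GU.pf_SNA pf_SNW
    (Pool.Agent.H85.GZ.pf_UNZ Pool.Agent.H44.GMF.pf_HAR) Pool.Agent.H44.GMF.pf_HAR)

end Pool.Agent.H23.GA
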